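import Pool.Agent.Helper88.Ric.Stmts

/-! MP_092777_ag, module RINJ: the relation `ricR` is locally injective. -/

set_option autoImplicit false

open scoped ContDiff Manifold Topology MatrixGroups LinearAlgebra.Projectivization
open Complex

noncomputable section

namespace RicP

theorem rinj_zmod {N : ℕ} (hN : 2 ≤ N) (k : ZMod N) : k ≠ k + 1 := by
  intro h
  have h1 : (1 : ZMod N) = 0 := by
    have h2 : k + 0 = k + 1 := by rw [add_zero]; exact h
    exact (add_left_cancel h2).symm
  have : Fact (1 < N) := ⟨by omega⟩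
  exact one_ne_zero h1

theorem st_RINJ (h : ST_GINJ) : ST_RINJ := by
  intro M N hNOK t i x hx
  rcases i with q | ⟨c, k⟩
  · have hx' : 0 < x.1.im := by
      have h1 : 4 / 5 < x.1.im := hx.1
      linarith
    obtain ⟨V, hV, hV'⟩ := h M N hNOK t q x hx'
    refine ⟨V, hV, ?_⟩
    intro y hy z hz hR
    exact hV' y hy.1 z hz.1 hR
  · refine ⟨Set.univ, Filter.univ_mem, ?_⟩
    intro y _ z _ hR
    have h8 : 2 ≤ N := by
      have := hNOK.2
      omega
    rcases hR.2 with h1 | h1 | h1
    · exact h1.2
    · exact absurd h1.1 (rinj_zmod h8 k)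
    · exact absurd h1.1 (rinj_zmod h8 k)

end RicP
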